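import Mathlib

set_option autoImplicit false

namespace Pool.Agent.Results.MP_66fdf3_co.Main

open Function

/-- A latin square with rows, columns and symbols indexed by `G`. -/
def IsLatin {G : Type} (L : G → G → G) : Prop :=
  (∀ i, Bijective (fun j => L i j)) ∧ ∀ j, Bijective (fun i => L i j)

/-- The cells `{r₁,r₂} × {c₁,c₂}` form the latin subsquare `a b / b a`. -/
def Sub2 {G : Type} (L : G → G → G) (r₁ r₂ c₁ c₂ a b : G) : Prop :=
  L r₁ c₁ = a ∧ L r₂ c₂ = a ∧ L r₁ c₂ = b ∧ L r₂ c₁ = b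

def NearOrth {G : Type} (L L' : G → G → G) : Prop :=
  (∃ r₁ r₂ c₁ c₂ a b, r₁ ≠ r₂ ∧ c₁ ≠ c₂ ∧ a ≠ b ∧ Sub2 L r₁ r₂ c₁ c₂ a b ∧
    (Sub2 L' r₁ r₂ c₁ c₂ a b ∨ Sub2 L' r₁ r₂ c₁ c₂ b a)) ∧
  (Set.range (fun p : G × G => (L p.1 p.2, L' p.1 p.2))).ncard + 2 = Nat.card G ^ 2

/-- The Cayley table of `G` has a near-orthogonal mate. -/
def HasMate (G : Type) [Group G] : Prop :=
  ∃ L' : G → G → G, IsLatin L' ∧ NearOrth (fun g h => g * h) L'

/-- `θ` and `x ↦ x * θ x` are both bijections (a transversal of the Cayley table). -/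
def HasCM (Q : Type) [Group Q] : Prop :=
  ∃ θ : Q → Q, Bijective θ ∧ Bijective (fun x => x * θ x)

section
variable {G : Type} [Group G]

def NI (L' : G → G → G) (r₂ c₁ c₂ : G) : Prop :=
  ∀ g h g' h', (g, h) ≠ (r₂, c₂) → (g, h) ≠ (r₂, c₁) → (g', h') ≠ (r₂, c₂) → (g', h') ≠ (r₂, c₁) →
    g * h = g' * h' → L' g h = L' g' h' → g = g'

def Mate (G : Type) [Group G] : Prop :=
  ∃ L' : G → G → G, (∀ i, Injective (fun j => L' i j)) ∧ (∀ j, Injective (fun i => L' i j)) ∧
    ∃ r₁ r₂ c₁ c₂ a b, r₁ ≠ r₂ ∧ c₁ ≠ c₂ ∧ a ≠ b ∧ Sub2 (fun g h => g * h) r₁ r₂ c₁ c₂ a b ∧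
      (Sub2 L' r₁ r₂ c₁ c₂ a b ∨ Sub2 L' r₁ r₂ c₁ c₂ b a) ∧ NI L' r₂ c₁ c₂

theorem card_iff [Finite G] (L' : G → G → G) {r₁ r₂ c₁ c₂ : G} (hr : r₁ ≠ r₂) (hc : c₁ ≠ c₂)
    (h1 : r₁ * c₁ = r₂ * c₂) (h2 : r₁ * c₂ = r₂ * c₁) (h3 : L' r₁ c₁ = L' r₂ c₂)
    (h4 : L' r₁ c₂ = L' r₂ c₁) :
    (Set.range (fun p : G × G => (p.1 * p.2, L' p.1 p.2))).ncard + 2 = Nat.card G ^ 2 ↔
      NI L' r₂ c₁ c₂ := by
  classical
  haveI := Fintype.ofFinite G
  set F : G × G → G × G := fun p => (p.1 * p.2, L' p.1 p.2) with hF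
  set U : Finset (G × G) := (Finset.univ.erase (r₂, c₂)).erase (r₂, c₁) with hU
  have hmem : ∀ p, p ∈ U ↔ p ≠ (r₂, c₂) ∧ p ≠ (r₂, c₁) := by
    intro p
    simp [hU, and_comm]
  have hcard : U.card + 2 = Nat.card G ^ 2 := by
    have e1 : (r₂, c₁) ∈ Finset.univ.erase (r₂, c₂) := by simp [hc]
    have a1 := Finset.card_erase_add_one e1
    have a2 := Finset.card_erase_add_one (Finset.mem_univ (r₂, c₂))
    rw [Finset.card_univ, Fintype.card_prod] at a2
    rw [Nat.card_eq_fintype_card, sq, hU]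
    omega
  have hrange : Set.range F = ↑(U.image F) := by
    ext z
    simp only [Set.mem_range, Finset.coe_image, Set.mem_image, Finset.mem_coe, hmem]
    constructor
    · rintro ⟨p, rfl⟩
      by_cases e1 : p = (r₂, c₂)
      · exact ⟨(r₁, c₁), ⟨by simp [hr], by simp [hr]⟩, by simp [hF, e1, h1, h3]⟩
      · by_cases e2 : p = (r₂, c₁)
        · exact ⟨(r₁, c₂), ⟨by simp [hr], by simp [hr]⟩, by simp [hF, e2, h2, h4]⟩
        · exact ⟨p, ⟨e1, e2⟩, rfl⟩
    · rintro ⟨p, _, rfl⟩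
      exact ⟨p, rfl⟩
  rw [hrange, Set.ncard_coe_finset, ← hcard, Nat.add_right_cancel_iff, Finset.card_image_iff]
  constructor
  · intro h g k g' k' a1 a2 a3 a4 a5 a6
    have := h ((hmem (g, k)).mpr ⟨a1, a2⟩) ((hmem (g', k')).mpr ⟨a3, a4⟩) (by simp [hF, a5, a6])
    exact (Prod.ext_iff.mp this).1
  · rintro h ⟨g, k⟩ hp ⟨g', k'⟩ hq e
    have hp' := (hmem _).mp hp
    have hq' := (hmem _).mp hq
    simp only [hF, Prod.mk.injEq] at e
    have := h g k g' k' hp'.1 hp'.2 hq'.1 hq'.2 e.1 e.2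
    subst this
    rw [mul_left_cancel e.1]

theorem mate_iff [Finite G] : HasMate G ↔ Mate G := by
  constructor
  · rintro ⟨L', hL, ⟨r₁, r₂, c₁, c₂, a, b, hr, hc, hab, s1, s2⟩, hcard⟩
    refine ⟨L', fun i => (hL.1 i).1, fun j => (hL.2 j).1, r₁, r₂, c₁, c₂, a, b, hr, hc, hab, s1,
      s2, ?_⟩
    refine (card_iff L' hr hc (s1.1.trans s1.2.1.symm) (s1.2.2.1.trans s1.2.2.2.symm) ?_ ?_).mp hcard
    · rcases s2 with s | s <;> exact s.1.trans s.2.1.symm
    · rcases s2 with s | s <;> exact s.2.2.1.trans s.2.2.2.symm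
  · rintro ⟨L', h1, h2, r₁, r₂, c₁, c₂, a, b, hr, hc, hab, s1, s2, hN⟩
    refine ⟨L', ⟨fun i => Finite.injective_iff_bijective.mp (h1 i),
      fun j => Finite.injective_iff_bijective.mp (h2 j)⟩,
      ⟨r₁, r₂, c₁, c₂, a, b, hr, hc, hab, s1, s2⟩, ?_⟩
    refine (card_iff L' hr hc (s1.1.trans s1.2.1.symm) (s1.2.2.1.trans s1.2.2.2.symm) ?_ ?_).mpr hN
    · rcases s2 with s | s <;> exact s.1.trans s.2.1.symm
    · rcases s2 with s | s <;> exact s.2.2.1.trans s.2.2.2.symm

theorem diag [Finite G] {L' : G → G → G} (h1 : ∀ i, Injective (fun j => L' i j))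
    (h2 : ∀ j, Injective (fun i => L' i j)) (s : G) :
    ∃ θ : G → G, Bijective θ ∧ ∀ g, L' g (θ g) = s := by
  have : ∀ g, ∃ h, L' g h = s := fun g => (Finite.injective_iff_surjective.mp (h1 g)) s
  choose θ hθ using this
  refine ⟨θ, Finite.injective_iff_bijective.mp ?_, hθ⟩
  intro g g' e
  apply h2 (θ g)
  have := hθ g'
  rw [← e] at this
  simp only [hθ g, this]

theorem ex_third [Finite G] (h3 : 3 ≤ Nat.card G) (a b : G) : ∃ s, s ≠ a ∧ s ≠ b := by
  classical
  haveI := Fintype.ofFinite G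
  by_contra hn
  have : (Finset.univ : Finset G) ⊆ {a, b} := by
    intro s _
    by_contra h
    simp only [Finset.mem_insert, Finset.mem_singleton, not_or] at h
    exact hn ⟨s, h⟩
  have h1 := Finset.card_le_card this
  have h2 : ({a, b} : Finset G).card ≤ 2 := Finset.card_le_two
  rw [Finset.card_univ, ← Nat.card_eq_fintype_card] at h1
  omega

theorem cm_of_mate [Finite G] (h3 : 3 ≤ Nat.card G) (h : Mate G) : HasCM G := by
  obtain ⟨L', h1, h2, r₁, r₂, c₁, c₂, a, b, hr, hc, hab, s1, s2, hN⟩ := h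
  obtain ⟨s, sa, sb⟩ := ex_third h3 a b
  obtain ⟨θ, hθ, hs⟩ := diag h1 h2 s
  refine ⟨θ, hθ, Finite.injective_iff_bijective.mp ?_⟩
  have key : ∀ g, (g, θ g) ≠ (r₂, c₂) ∧ (g, θ g) ≠ (r₂, c₁) := by
    intro g
    have := hs g
    constructor
    · intro e
      rw [(Prod.mk.inj e).2, (Prod.mk.inj e).1] at this
      rcases s2 with t | t
      · exact sa (this.symm.trans t.2.1)
      · exact sb (this.symm.trans t.2.1)
    · intro e
      rw [(Prod.mk.inj e).2, (Prod.mk.inj e).1] at this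
      rcases s2 with t | t
      · exact sb (this.symm.trans t.2.2.2)
      · exact sa (this.symm.trans t.2.2.2)
  intro g g' e
  exact hN g (θ g) g' (θ g') (key g).1 (key g).2 (key g').1 (key g').2 e ((hs g).trans (hs g').symm)

theorem necessary [Finite G] (h3 : 3 ≤ Nat.card G) (h : Mate G) :
    ∃ t ∈ commutator G, orderOf t = 2 := by
  classical
  haveI := Fintype.ofFinite G
  obtain ⟨φ, hφ, hφ2⟩ := cm_of_mate h3 h
  obtain ⟨L', h1, h2, r₁, r₂, c₁, c₂, a, b, hr, hc, hab, s1, s2, hN⟩ := h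
  set ab : G →* Abelianization G := Abelianization.of with hab'
  set P := ∏ g, ab g with hP
  have hP1 : P = 1 := by
    have e1 := hφ2.prod_comp (fun g => ab g)
    have e2 := hφ.prod_comp (fun g => ab g)
    simp only [map_mul, Finset.prod_mul_distrib] at e1
    rw [e2, ← hP] at e1
    simpa using e1
  obtain ⟨θ, hθ, hs⟩ := diag h1 h2 (L' r₁ c₁)
  have e12 : L' r₁ c₁ = L' r₂ c₂ := by rcases s2 with s | s <;> exact s.1.trans s.2.1.symm
  have t1 : θ r₁ = c₁ := h1 r₁ (hs r₁)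
  have t2 : θ r₂ = c₂ := h1 r₂ ((hs r₂).trans e12)
  obtain ⟨q1, q2, q3, q4⟩ := s1
  simp only at q1 q2 q3 q4
  have hsurj : Surjective (update (fun g => g * θ g) r₂ b) := by
    intro u
    by_cases ub : u = b
    · exact ⟨r₂, by simp [ub]⟩
    by_cases ua : u = a
    · exact ⟨r₁, by simp [hr, t1, q1, ua]⟩
    have hinj : Injective (fun g => L' g (g⁻¹ * u)) := by
      have key : ∀ g, (g, g⁻¹ * u) ≠ (r₂, c₂) ∧ (g, g⁻¹ * u) ≠ (r₂, c₁) := by
        intro g
        constructor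
        · intro e
          obtain ⟨e1, e2⟩ := Prod.ext_iff.mp e
          simp only at e1 e2
          apply ua
          rw [← q2, ← e2, e1]
          simp
        · intro e
          obtain ⟨e1, e2⟩ := Prod.ext_iff.mp e
          simp only at e1 e2
          apply ub
          rw [← q4, ← e2, e1]
          simp
      intro g g' e
      exact hN g _ g' _ (key g).1 (key g).2 (key g').1 (key g').2 (by simp) e
    obtain ⟨g, hg⟩ := (Finite.injective_iff_surjective.mp hinj) (L' r₁ c₁)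
    have t3 : θ g = g⁻¹ * u := h1 g ((hs g).trans hg.symm)
    have gne : g ≠ r₂ := by
      intro e
      apply ua
      rw [← q2, ← t2, ← e, t3]
      simp
    exact ⟨g, by simp [gne, t3]⟩
  have hbij := Finite.surjective_iff_bijective.mp hsurj
  have e1 := hbij.prod_comp (fun g => ab g)
  have e2 := hθ.prod_comp (fun g => ab g)
  have e3 : ∏ g, ab (g * θ g) = 1 := by
    simp only [map_mul, Finset.prod_mul_distrib]
    rw [e2, ← hP, hP1, mul_one]
  rw [← hP, hP1, ← Finset.mul_prod_erase _ _ (Finset.mem_univ r₂)] at e1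
  rw [← Finset.mul_prod_erase _ _ (Finset.mem_univ r₂)] at e3
  have e4 : ∏ x ∈ Finset.univ.erase r₂, ab (update (fun g => g * θ g) r₂ b x) =
      ∏ x ∈ Finset.univ.erase r₂, ab (x * θ x) := by
    refine Finset.prod_congr rfl (fun x hx => ?_)
    rw [update_of_ne (Finset.ne_of_mem_erase hx)]
  rw [e4, update_self] at e1
  rw [t2, q2] at e3
  have e5 : ab a = ab b := mul_right_cancel (e3.trans e1.symm)
  refine ⟨a * b⁻¹, ?_, ?_⟩
  · rw [← Abelianization.ker_of, MonoidHom.mem_ker, ← hab', map_mul, map_inv, e5, mul_inv_cancel]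
  · haveI : Fact (Nat.Prime 2) := ⟨Nat.prime_two⟩
    apply orderOf_eq_prime
    · have f1 : a * b⁻¹ = r₁ * r₂⁻¹ := by
        rw [← q1, ← q4]
        group
      have f2 : (a * b⁻¹)⁻¹ = r₁ * r₂⁻¹ := by
        rw [← q2, ← q3]
        group
      rw [sq]
      nth_rewrite 2 [f1]
      rw [← f2, mul_inv_cancel]
    · intro e
      exact hab (mul_inv_eq_one.mp e)

/-- Block construction. -/
theorem block [Finite G] {N I : Type} [Group N] [Finite N] [Finite I] (ι : N →* G)
    (x y : I → G) (i0 : I) (hx : x i0 = 1) (hy : y i0 = 1)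
    (b1 : Bijective (fun p : I × N => x p.1 * ι p.2))
    (b2 : Bijective (fun p : I × N => ι p.2 * y p.1))
    (M : I → I → I) (m1 : ∀ i, Injective (fun j => M i j)) (m2 : ∀ j, Injective (fun i => M i j))
    (m0 : M i0 i0 = i0)
    (hM : ∀ i j i' j' h h', M i j = M i' j' → x i * ι h * y j = x i' * ι h' * y j' → i = i')
    (h3 : 3 ≤ Nat.card N) (hN : Mate N) : Mate G := by
  classical
  obtain ⟨φ, hφ, hφ2⟩ := cm_of_mate h3 hN
  obtain ⟨L', h1, h2, r₁, r₂, c₁, c₂, a, b, hr, hc, hab, s1, s2, hI⟩ := hN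
  set e1 := Equiv.ofBijective _ b1 with he1
  set e2 := Equiv.ofBijective _ b2 with he2
  have E1 : ∀ i h, e1 (i, h) = x i * ι h := fun _ _ => rfl
  have E2 : ∀ i h, e2 (i, h) = ι h * y i := fun _ _ => rfl
  have hι : Injective ι := by
    intro h k e
    have : e1 (i0, h) = e1 (i0, k) := by rw [E1, E1, e]
    exact (Prod.ext_iff.mp (e1.injective this)).2
  set B : I → I → N → N → N := fun i j h k => if i = i0 ∧ j = i0 then L' h k else (φ h)⁻¹ * k
    with hB
  have B1 : ∀ i j h, Injective (fun k => B i j h k) := by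
    intro i j h k k' e
    simp only [hB] at e
    split_ifs at e
    · exact h1 h e
    · exact mul_left_cancel e
  have B2 : ∀ i j k, Injective (fun h => B i j h k) := by
    intro i j k h h' e
    simp only [hB] at e
    split_ifs at e
    · exact h2 k e
    · exact hφ.1 (inv_injective (mul_right_cancel e))
  set L : G → G → G := fun g g' =>
    e1 (M (e1.symm g).1 (e2.symm g').1, B (e1.symm g).1 (e2.symm g').1 (e1.symm g).2 (e2.symm g').2)
    with hL
  have LL : ∀ i h j k, L (e1 (i, h)) (e2 (j, k)) = e1 (M i j, B i j h k) := by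
    intro i h j k
    simp [hL]
  have z1 : ∀ h, ι h = e1 (i0, h) := fun h => by rw [E1, hx, one_mul]
  have z2 : ∀ h, ι h = e2 (i0, h) := fun h => by rw [E2, hy, mul_one]
  have L0 : ∀ h k, L (ι h) (ι k) = ι (L' h k) := by
    intro h k
    rw [z1 h, z2 k, LL, m0, z1]
    simp [hB]
  refine ⟨L, ?_, ?_, ι r₁, ι r₂, ι c₁, ι c₂, ι a, ι b, hι.ne hr, hι.ne hc, hι.ne hab, ?_, ?_, ?_⟩
  · intro g g1 g2 e
    obtain ⟨⟨i, h⟩, rfl⟩ := e1.surjective g
    obtain ⟨⟨j, k⟩, rfl⟩ := e2.surjective g1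
    obtain ⟨⟨j', k'⟩, rfl⟩ := e2.surjective g2
    simp only [LL] at e
    obtain ⟨f1, f2⟩ := Prod.ext_iff.mp (e1.injective e)
    have := m1 i f1
    subst this
    rw [B1 i j h f2]
  · intro g g1 g2 e
    obtain ⟨⟨j, k⟩, rfl⟩ := e2.surjective g
    obtain ⟨⟨i, h⟩, rfl⟩ := e1.surjective g1
    obtain ⟨⟨i', h'⟩, rfl⟩ := e1.surjective g2
    simp only [LL] at e
    obtain ⟨f1, f2⟩ := Prod.ext_iff.mp (e1.injective e)
    have := m2 j f1
    subst this
    rw [B2 i j k f2]
  · obtain ⟨q1, q2, q3, q4⟩ := s1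
    simp only at q1 q2 q3 q4
    refine ⟨?_, ?_, ?_, ?_⟩ <;> simp only [← map_mul, q1, q2, q3, q4]
  · rcases s2 with ⟨q1, q2, q3, q4⟩ | ⟨q1, q2, q3, q4⟩
    · left
      refine ⟨?_, ?_, ?_, ?_⟩ <;> simp only [L0, q1, q2, q3, q4]
    · right
      refine ⟨?_, ?_, ?_, ?_⟩ <;> simp only [L0, q1, q2, q3, q4]
  · intro g1 g2 g3 g4 n1 n2 n3 n4 p e
    obtain ⟨⟨i, h⟩, rfl⟩ := e1.surjective g1
    obtain ⟨⟨j, k⟩, rfl⟩ := e2.surjective g2
    obtain ⟨⟨i', h'⟩, rfl⟩ := e1.surjective g3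
    obtain ⟨⟨j', k'⟩, rfl⟩ := e2.surjective g4
    simp only [LL] at e
    obtain ⟨f1, f2⟩ := Prod.ext_iff.mp (e1.injective e)
    simp only at f1 f2
    have p' : x i * ι (h * k) * y j = x i' * ι (h' * k') * y j' := by
      simp only [E1, E2] at p
      simp only [map_mul, mul_assoc] at p ⊢
      exact p
    have := hM _ _ _ _ _ _ f1 p'
    subst this
    have := m1 i f1
    subst this
    have p2 : h * k = h' * k' := hι (mul_left_cancel (mul_right_cancel p'))
    simp only [hB] at f2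
    split_ifs at f2 with hij
    · obtain ⟨rfl, rfl⟩ := hij
      rw [← z1, ← z2] at n1 n2 n3 n4
      have := hI h k h' k' (fun e => n1 (by rw [(Prod.mk.inj e).1, (Prod.mk.inj e).2]))
        (fun e => n2 (by rw [(Prod.mk.inj e).1, (Prod.mk.inj e).2]))
        (fun e => n3 (by rw [(Prod.mk.inj e).1, (Prod.mk.inj e).2]))
        (fun e => n4 (by rw [(Prod.mk.inj e).1, (Prod.mk.inj e).2])) p2 f2
      rw [this]
    · have : h * φ h = h' * φ h' := by
        have u1 : h * k = h * φ h * ((φ h)⁻¹ * k) := by group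
        have u2 : h' * k' = h' * φ h' * ((φ h')⁻¹ * k') := by group
        rw [u1, u2, f2] at p2
        exact mul_right_cancel p2
      rw [hφ2.1 this]

theorem mate_equiv [Finite G] {N : Type} [Group N] [Finite N] (e : N ≃* G) (h3 : 3 ≤ Nat.card N)
    (hN : Mate N) : Mate G := by
  refine block (I := Unit) e.toMonoidHom (fun _ => 1) (fun _ => 1) () rfl rfl ?_ ?_
    (fun _ _ => ()) (fun _ _ _ _ => rfl) (fun _ _ _ _ => rfl) rfl (fun _ _ _ _ _ _ _ _ => rfl) h3 hN
  · refine ⟨fun p q h => Prod.ext rfl (e.injective (by simpa using h)), fun g => ⟨((), e.symm g), by simp⟩⟩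
  · refine ⟨fun p q h => Prod.ext rfl (e.injective (by simpa using h)), fun g => ⟨((), e.symm g), by simp⟩⟩

theorem ext_normal [Finite G] (N : Subgroup G) [N.Normal] (hQ : HasCM (G ⧸ N))
    (h3 : 3 ≤ Nat.card N) (hN : Mate N) : Mate G := by
  classical
  obtain ⟨θ, hθ, hθ2⟩ := hQ
  set x : G ⧸ N → G := fun q => if q = 1 then 1 else q.out with hx
  have hmk : ∀ q, (x q : G ⧸ N) = q := by
    intro q
    simp only [hx]
    split_ifs with h
    · simp [h]
    · simp
  have hn : ∀ h : N, ((h : G) : G ⧸ N) = 1 := fun h => (QuotientGroup.eq_one_iff _).mpr h.2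
  refine block N.subtype x x 1 (by simp [hx]) (by simp [hx]) ?_ ?_
    (fun i j => θ 1 * (θ i)⁻¹ * j) ?_ ?_ (by simp) ?_ h3 hN
  · constructor
    · rintro ⟨i, h⟩ ⟨j, k⟩ e
      have e1 := congrArg (fun g : G => (g : G ⧸ N)) e
      simp only [QuotientGroup.mk_mul, hmk, Subgroup.coe_subtype, hn, mul_one] at e1
      subst e1
      have := mul_left_cancel e
      exact Prod.ext rfl (Subtype.ext this)
    · intro g
      have : (x (g : G ⧸ N))⁻¹ * g ∈ N := QuotientGroup.eq.mp (hmk _)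
      exact ⟨((g : G ⧸ N), ⟨_, this⟩), by simp⟩
  · constructor
    · rintro ⟨i, h⟩ ⟨j, k⟩ e
      have e1 := congrArg (fun g : G => (g : G ⧸ N)) e
      simp only [QuotientGroup.mk_mul, hmk, Subgroup.coe_subtype, hn, one_mul] at e1
      subst e1
      have := mul_right_cancel e
      exact Prod.ext rfl (Subtype.ext this)
    · intro g
      have : g * (x (g : G ⧸ N))⁻¹ ∈ N := by
        rw [← QuotientGroup.eq_one_iff]
        simp [hmk]
      exact ⟨((g : G ⧸ N), ⟨_, this⟩), by simp⟩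
  · intro i j j' e
    exact mul_left_cancel e
  · intro j i i' e
    exact hθ.1 (inv_injective (mul_left_cancel (mul_right_cancel e)))
  · intro i j i' j' h h' e1 e2
    have e3 := congrArg (fun g : G => (g : G ⧸ N)) e2
    simp only [QuotientGroup.mk_mul, hmk, Subgroup.coe_subtype, hn, mul_one] at e3
    apply hθ2.1
    have e4 : (θ i)⁻¹ * j = (θ i')⁻¹ * j' := by
      rw [mul_assoc, mul_assoc] at e1
      exact mul_left_cancel e1
    have u1 : i * j = i * θ i * ((θ i)⁻¹ * j) := by group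
    have u2 : i' * j' = i' * θ i' * ((θ i')⁻¹ * j') := by group
    rw [u1, u2, e4] at e3
    exact mul_right_cancel e3

theorem cm_odd {Q : Type} [Group Q] [Finite Q] (h : Odd (Nat.card Q)) : HasCM Q := by
  refine ⟨id, bijective_id, ?_⟩
  have := (powCoprime (G := Q) (n := 2) (Nat.coprime_two_right.mpr h)).bijective
  convert this using 2 with x
  simp [sq]

theorem ext_semi [Finite G] (A N : Subgroup G) [hA : A.Normal] (hc : A.IsComplement' N)
    (σ : A → A) (hσ : Injective σ)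
    (hs : ∀ h ∈ N, Injective (fun a : A => (a : G) * (h * σ a * h⁻¹)))
    (h3 : 3 ≤ Nat.card N) (hN : Mate N) : Mate G := by
  have b1 : Bijective (fun p : A × N => (p.1 : G) * N.subtype p.2) := hc
  refine block N.subtype (fun a : A => (a : G)) (fun a : A => (a : G)) 1 rfl rfl b1 ?_
    (fun i j => σ 1 * (σ i)⁻¹ * j) ?_ ?_ (by simp) ?_ h3 hN
  · have b2 : Bijective (fun p : N × A => (p.1 : G) * p.2) := hc.symm
    exact b2.comp (Equiv.prodComm A N).bijective
  · intro i j j' e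
    exact mul_left_cancel e
  · intro j i i' e
    exact hσ (inv_injective (mul_left_cancel (mul_right_cancel e)))
  · intro i j i' j' h h' e1 e2
    have e4 : (σ i)⁻¹ * j = (σ i')⁻¹ * j' := by
      rw [mul_assoc, mul_assoc] at e1
      exact mul_left_cancel e1
    have e5 : ((σ i : G))⁻¹ * j = ((σ i' : G))⁻¹ * j' := by
      exact_mod_cast congrArg (fun a : A => (a : G)) e4
    simp only [Subgroup.coe_subtype] at e2
    have u1 : (i : G) * h * j = i * (h * σ i * (h : G)⁻¹) * h * ((σ i : G)⁻¹ * j) := by group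
    have u2 : (i' : G) * h' * j' = i' * (h' * σ i' * (h' : G)⁻¹) * h' * ((σ i' : G)⁻¹ * j') := by
      group
    rw [u1, u2, e5] at e2
    have e6 := mul_right_cancel e2
    have e7 := b1.1 (a₁ := (⟨_, A.mul_mem i.2 (hA.conj_mem _ (σ i).2 h)⟩, h))
      (a₂ := (⟨_, A.mul_mem i'.2 (hA.conj_mem _ (σ i').2 h')⟩, h')) e6
    obtain ⟨e8, e9⟩ := Prod.mk.inj e7
    subst e9
    exact hs h h.2 (mul_right_cancel e6)

theorem mate_table {n : ℕ} (enc : Fin n → G) (hb : Bijective enc) (T L : Fin n → Fin n → Fin n)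
    (hT : ∀ i j, enc (T i j) = enc i * enc j)
    (h1 : ∀ i j j', L i j = L i j' → j = j') (h2 : ∀ j i i', L i j = L i' j → i = i')
    (z t : Fin n) (hzt : z ≠ t) (s1 : Sub2 T z t z t z t) (s2 : Sub2 L z t z t z t)
    (hI : ∀ g h g' h', T g h = T g' h' → L g h = L g' h' →
      g = g' ∨ (g = t ∧ (h = t ∨ h = z)) ∨ (g' = t ∧ (h' = t ∨ h' = z))) : Mate G := by
  set e := Equiv.ofBijective enc hb with he
  have E : ∀ i, e i = enc i := fun _ => rfl
  have S : ∀ i, e.symm (enc i) = i := fun i => e.symm_apply_apply i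
  refine ⟨fun g h => enc (L (e.symm g) (e.symm h)), ?_, ?_, enc z, enc t, enc z, enc t, enc z, enc t,
    hb.1.ne hzt, hb.1.ne hzt, hb.1.ne hzt, ?_, Or.inl ?_, ?_⟩
  · intro g h h' q
    exact e.symm.injective (h1 _ _ _ (hb.1 q))
  · intro g h h' q
    exact e.symm.injective (h2 _ _ _ (hb.1 q))
  · obtain ⟨q1, q2, q3, q4⟩ := s1
    refine ⟨?_, ?_, ?_, ?_⟩ <;> simp only [← hT, q1, q2, q3, q4]
  · obtain ⟨q1, q2, q3, q4⟩ := s2
    refine ⟨?_, ?_, ?_, ?_⟩ <;> simp only [S, q1, q2, q3, q4]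
  · intro g h g' h' n1 n2 n3 n4 p q
    obtain ⟨g, rfl⟩ := hb.2 g
    obtain ⟨h, rfl⟩ := hb.2 h
    obtain ⟨g', rfl⟩ := hb.2 g'
    obtain ⟨h', rfl⟩ := hb.2 h'
    rw [← hT, ← hT] at p
    simp only [S] at q
    rcases hI g h g' h' (hb.1 p) (hb.1 q) with r | ⟨r, r' | r'⟩ | ⟨r, r' | r'⟩
    · rw [r]
    · exact absurd (by rw [r, r']) n1
    · exact absurd (by rw [r, r']) n2
    · exact absurd (by rw [r, r']) n3
    · exact absurd (by rw [r, r']) n4

end

def tD (i j : Fin 8) : Fin 8 :=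
  Fin.ofNat 8 (1415943491130426260600801923942683930981405329885949093263767747241945870864 / 16 ^ (i.val * 8 + j.val) % 16)

def lD (i j : Fin 8) : Fin 8 :=
  Fin.ofNat 8 (53521339135508353243013002912323037486577842014598801566225640281366988026464 / 16 ^ (i.val * 8 + j.val) % 16)

def tQ (i j : Fin 8) : Fin 8 :=
  Fin.ofNat 8 (14932323540251697509174017470327055708980869185541157855813268603887712219664 / 16 ^ (i.val * 8 + j.val) % 16)

def lQ (i j : Fin 8) : Fin 8 :=
  Fin.ofNat 8 (53521339135509277199827543346315007578520528039034623490640676843987930276464 / 16 ^ (i.val * 8 + j.val) % 16)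

def tA (i j : Fin 12) : Fin 12 :=
  Fin.ofNat 12 (1099246228769001890931082562126702001558018722078822917734316235188111912971129222491798936609133464225093121906702645793607206164188692679327496667199353807173393975620112 / 16 ^ (i.val * 12 + j.val) % 16)

def lA (i j : Fin 12) : Fin 12 :=
  Fin.ofNat 12 (78755101460421437046266784185963283731135986541446860532753467999409503808055849131299700831142825492079380035989498148502254849869843122568540384326619399779231897993361312 / 16 ^ (i.val * 12 + j.val) % 16)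

def encD (i : Fin 8) : DihedralGroup 4 :=
  if i.val < 4 then DihedralGroup.r (i.val : ZMod 4) else DihedralGroup.sr (i.val : ZMod 4)

def encQ (i : Fin 8) : QuaternionGroup 2 :=
  if i.val < 4 then QuaternionGroup.a (i.val : ZMod (2 * 2)) else QuaternionGroup.xa (i.val : ZMod (2 * 2))

def prmA : Fin 12 → Equiv.Perm (Fin 4) :=
  ![⟨![0, 1, 2, 3], ![0, 1, 2, 3], by decide, by decide⟩,
    ⟨![0, 2, 3, 1], ![0, 3, 1, 2], by decide, by decide⟩,
    ⟨![0, 3, 1, 2], ![0, 2, 3, 1], by decide, by decide⟩,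
    ⟨![1, 0, 3, 2], ![1, 0, 3, 2], by decide, by decide⟩,
    ⟨![1, 2, 0, 3], ![2, 0, 1, 3], by decide, by decide⟩,
    ⟨![1, 3, 2, 0], ![3, 0, 2, 1], by decide, by decide⟩,
    ⟨![2, 0, 1, 3], ![1, 2, 0, 3], by decide, by decide⟩,
    ⟨![2, 1, 3, 0], ![3, 1, 0, 2], by decide, by decide⟩,
    ⟨![2, 3, 0, 1], ![2, 3, 0, 1], by decide, by decide⟩,
    ⟨![3, 0, 2, 1], ![1, 3, 2, 0], by decide, by decide⟩,
    ⟨![3, 1, 0, 2], ![2, 1, 3, 0], by decide, by decide⟩,
    ⟨![3, 2, 1, 0], ![3, 2, 1, 0], by decide, by decide⟩]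

theorem prmA_mem : ∀ i, prmA i ∈ alternatingGroup (Fin 4) := by
  intro i
  rw [Equiv.Perm.mem_alternatingGroup]
  revert i
  decide

def encA (i : Fin 12) : alternatingGroup (Fin 4) := ⟨prmA i, prmA_mem i⟩

theorem mateD : Mate (DihedralGroup 4) := by
  refine mate_table encD ?_ tD lD (by decide +kernel) (by decide +kernel) (by decide +kernel) 0 2
    (by decide) ⟨by decide, by decide, by decide, by decide⟩
    ⟨by decide, by decide, by decide, by decide⟩ (by decide +kernel)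
  rw [Fintype.bijective_iff_injective_and_card]
  exact ⟨by decide +kernel, by simp [DihedralGroup.card]⟩

theorem mateQ : Mate (QuaternionGroup 2) := by
  refine mate_table encQ ?_ tQ lQ (by decide +kernel) (by decide +kernel) (by decide +kernel) 0 2
    (by decide) ⟨by decide, by decide, by decide, by decide⟩
    ⟨by decide, by decide, by decide, by decide⟩ (by decide +kernel)
  rw [Fintype.bijective_iff_injective_and_card]
  exact ⟨by decide +kernel, by simp [QuaternionGroup.card]⟩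

theorem mateA : Mate (alternatingGroup (Fin 4)) := by
  have hT : ∀ i j, prmA (tA i j) = prmA i * prmA j := by decide +kernel
  have hI : ∀ i j, prmA i = prmA j → i = j := by decide +kernel
  refine mate_table encA ?_ tA lA (fun i j => Subtype.ext (hT i j)) (by decide +kernel)
    (by decide +kernel) 0 3
    (by decide) ⟨by decide, by decide, by decide, by decide⟩
    ⟨by decide, by decide, by decide, by decide⟩ (by decide +kernel)
  rw [Fintype.bijective_iff_injective_and_card]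
  refine ⟨fun i j e => hI i j (congrArg Subtype.val e), ?_⟩
  rw [card_alternatingGroup]
  simp [Nat.factorial]

theorem unit_cancel {m k : ℕ} (h : Nat.Coprime k m) {i j : ZMod m}
    (e : (k : ZMod m) * i = (k : ZMod m) * j) : i = j :=
  ((ZMod.isUnit_iff_coprime k m).mpr h).mul_left_cancel e

theorem mateDih (m : ℕ) (hm : Nat.Coprime m 6) : Mate (DihedralGroup (4 * m)) := by
  have h2 : Nat.Coprime 2 m := (Nat.Coprime.coprime_dvd_right (by norm_num) hm).symm
  have h3 : Nat.Coprime 3 m := (Nat.Coprime.coprime_dvd_right (by norm_num) hm).symm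
  have h4 : Nat.Coprime 4 m := Nat.Coprime.pow_left 2 h2
  have m0 : m ≠ 0 := by
    rintro rfl
    simp at h2
  haveI : NeZero m := ⟨m0⟩
  haveI : NeZero (4 * m) := ⟨by omega⟩
  set e := (ZMod.chineseRemainder h4).symm with he
  have ea : ∀ a b a' b', e (a, b) + e (a', b') = e (a + a', b + b') := by
    intro a b a' b'
    rw [← map_add, Prod.mk_add_mk]
  have es : ∀ a b a' b', e (a, b) - e (a', b') = e (a - a', b - b') := by
    intro a b a' b'
    rw [← map_sub, Prod.mk_sub_mk]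
  let f : DihedralGroup 4 → DihedralGroup (4 * m) := fun g =>
    match g with
    | DihedralGroup.r k => DihedralGroup.r (e (k, 0))
    | DihedralGroup.sr k => DihedralGroup.sr (e (k, 0))
  let ι : DihedralGroup 4 →* DihedralGroup (4 * m) := MonoidHom.mk' f (by
    rintro (a | a) (b | b) <;> simp [f, ea, es])
  have i1 : ∀ k, ι (DihedralGroup.r k) = DihedralGroup.r (e (k, 0)) := fun _ => rfl
  have i2 : ∀ k, ι (DihedralGroup.sr k) = DihedralGroup.sr (e (k, 0)) := fun _ => rfl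
  have z : DihedralGroup.r (e (0, 0)) = 1 := by
    rw [DihedralGroup.one_def, Prod.mk_zero_zero, map_zero]
  have hcard : Nat.card (ZMod m × DihedralGroup 4) = Nat.card (DihedralGroup (4 * m)) := by
    rw [Nat.card_prod, DihedralGroup.nat_card, DihedralGroup.nat_card, Nat.card_zmod]
    ring
  refine block (I := ZMod m) ι (fun i => DihedralGroup.r (e (0, i)))
    (fun i => DihedralGroup.r (e (0, i))) 0 z z ?_ ?_ (fun i j => j - 2 * i) ?_ ?_ (by simp) ?_
    (by rw [DihedralGroup.nat_card]; norm_num) mateD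
  · rw [Nat.bijective_iff_injective_and_card]
    refine ⟨?_, hcard⟩
    rintro ⟨i, a | a⟩ ⟨j, b | b⟩ q <;> simp [i1, i2, ea, es] at q ⊢ <;> tauto
  · rw [Nat.bijective_iff_injective_and_card]
    refine ⟨?_, hcard⟩
    rintro ⟨i, a | a⟩ ⟨j, b | b⟩ q <;> simp [i1, i2, ea, es] at q ⊢ <;> tauto
  · intro i j j' q
    simpa using q
  · intro j i i' q
    apply unit_cancel h2
    simp only [Nat.cast_ofNat]
    linear_combination -q
  · rintro i j i' j' (a | a) (b | b) q1 q2 <;> simp [i1, i2, ea, es] at q2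
    · apply unit_cancel h3
      simp only [Nat.cast_ofNat]
      linear_combination q2.2 - q1
    · linear_combination q2.2 - q1

theorem result :
    (∀ (G : Type) [Group G] [Finite G], 3 ≤ Nat.card G → HasMate G →
      ∃ t ∈ commutator G, orderOf t = 2) ∧
    (HasMate (DihedralGroup 4) ∧ HasMate (QuaternionGroup 2) ∧
      HasMate (alternatingGroup (Fin 4))) ∧
    (∀ (G H : Type) [Group G] [Finite G] [Group H] (N : Subgroup G) [N.Normal],
      Nonempty (H ≃* N) → 3 ≤ Nat.card H → HasMate H → (Odd N.index ∨ HasCM (G ⧸ N)) →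
      HasMate G) ∧
    (∀ (G H : Type) [Group G] [Finite G] [Group H] (A N : Subgroup G) [A.Normal],
      A.IsComplement' N → Nonempty (H ≃* N) → 3 ≤ Nat.card H → HasMate H →
      (∃ σ : A → A, Injective σ ∧
        ∀ h ∈ N, Injective (fun a : A => (a : G) * (h * σ a * h⁻¹))) → HasMate G) ∧
    (∀ m : ℕ, Nat.Coprime m 6 → HasMate (DihedralGroup (4 * m))) := by
  refine ⟨fun G _ _ h3 h => necessary h3 (mate_iff.mp h),
    ⟨mate_iff.mpr mateD, mate_iff.mpr mateQ, mate_iff.mpr mateA⟩, ?_, ?_, ?_⟩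
  · rintro G H _ _ _ N _ ⟨e⟩ h3 hH hq
    haveI : Finite H := Finite.of_equiv _ e.toEquiv.symm
    have h3' : 3 ≤ Nat.card N := by rwa [← Nat.card_congr e.toEquiv]
    refine mate_iff.mpr (ext_normal N ?_ h3' (mate_equiv e h3 (mate_iff.mp hH)))
    rcases hq with hq | hq
    · exact cm_odd hq
    · exact hq
  · rintro G H _ _ _ A N _ hc ⟨e⟩ h3 hH ⟨σ, h1, h2⟩
    haveI : Finite H := Finite.of_equiv _ e.toEquiv.symm
    have h3' : 3 ≤ Nat.card N := by rwa [← Nat.card_congr e.toEquiv]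
    exact mate_iff.mpr (ext_semi A N hc σ h1 h2 h3' (mate_equiv e h3 (mate_iff.mp hH)))
  · intro m hm
    have m0 : m ≠ 0 := by
      rintro rfl
      simp at hm
    haveI : NeZero (4 * m) := ⟨by omega⟩
    exact mate_iff.mpr (mateDih m hm)

end Pool.Agent.Results.MP_66fdf3_co.Main
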